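import Pool.Agent.Lib.MP_a430e8_ag.QMain

/-! A square multiple of the degree of fat points of equal multiplicity on a general surface,
curves of every degree. -/

namespace Pool.Agent.Results.MP_a430e8_ag.SquarePoints
open Pool.Agent.Lib.MP_a430e8_ag

theorem result (d a t m e : ℕ) (hd : 4 ≤ d) (ha : 1 ≤ a)
    (ht : 2 * m * t ≤ a * d * (a + 4 - d)) (hm : a + 4 < d → a * d * (a + d) ≤ m) :
    GeneralForm d fun f => GeneralPoints f (a ^ 2 * d + 2 * t) fun q =>
      Module.finrank ℂ (multiSeries f q e fun _ => m) = (e + 3 - d).choose 3 +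
        ((e + 3).choose 3 - (e + 3 - d).choose 3 - (a ^ 2 * d + 2 * t) * (m + 1).choose 2) := by
  rw [show a ^ 2 * d = a * d * a by ring]
  refine Q.of_rk (by omega) ?_
  rcases le_or_gt d (a + 4) with h | h
  · exact Q.rk_cmp ha (by omega) (Q.cmp_one ha hd h ht)
  · have h1 : 0 < a * d * (a + d) := by positivity
    have h2 := hm h
    rw [Nat.sub_eq_zero_of_le h.le, mul_zero, Nat.le_zero, mul_eq_zero] at ht
    obtain rfl : t = 0 := by omega
    exact Q.rk_two ha hd h2

end Pool.Agent.Results.MP_a430e8_ag.SquarePoints
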